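import Pool.Agent.Helper48.WL.C12c

/-!
# Anick's conjecture for Postnikov pieces whose even part is affine

Definitions used in the statement: `Pool.Agent.Helper2.GCA.Lam` (the free graded-commutative algebra
`Lam deg`, generators `gen`, monomials `mon`, homogeneous components `hom`, minimal Sullivan algebras
`MinimalSullivan`), `Pool.Agent.Helper2.AN.Stmt2` (relative Sullivan algebras `IsExt`,
finite-dimensional cohomology `CohFin`), `Pool.Agent.Helper98.RD.Stat` (`GoodAt`, `EvenOnto`) and
`Pool.Agent.Helper48.WL.Stat` (`EvenAffine`, `LocallyEvenAffine`).
-/

set_option autoImplicit false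

open Anick2

/-- Let `(ΛX, d)` be a minimal Sullivan algebra with finitely many generators, all of degree `≥ 2`, such that every
generator `t` of even degree lies in a set `A` of generators, or has `d t` in the ideal generated by such a set `A`,
where `d` maps the odd elements of `A` to the subalgebra generated by the odd elements of `A`, and the even elements of
`A` to polynomials in the elements of `A` which are affine-linear in the even ones (`A` may depend on `t`). Let
`(ΛX, d) → (ΛW, d)` be a morphism to a minimal Sullivan algebra with finitely many generators of degree `≥ 2` whose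
linear part is surjective in even degrees (for example the identity). Then for every `n` there is an elliptic relative
Sullivan algebra `(ΛW ⊗ ΛV, d)`, minimal as a Sullivan algebra, with `V = V^{≥ n}`. -/
theorem Pool.Agent.Results.MP_5f0082_gt.EvenAffineElliptic.result :
    ∀ (ι κ : Type) [Finite ι] [Finite κ] (deg : ι → ℕ) (deg' : κ → ℕ)
      (S : MinimalSullivan deg) (T : MinimalSullivan deg') (J : Lam deg' →ₐ[ℚ] Lam deg),
      EvenOnto S T J → T.LocallyEvenAffine → ∀ n, S.GoodAt n :=
  fun _ _ _ _ _ _ S T J hJ hT n => AnWL.main_perm S T J hJ hT n
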